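import Pool.Agent.MP_151d89_pr.H7.Full

set_option autoImplicit false
open MeasureTheory ProbabilityTheory Filter Topology

namespace Pool.Agent.Results.MP_151d89_pr.AlmostFrozen

/-- a graph homomorphism from the square lattice to the integers: neighbouring sites get
values that differ by exactly one -/
def IsHom (f : ℤ × ℤ → ℤ) : Prop :=
  ∀ x y : ℤ × ℤ, |x.1 - y.1| + |x.2 - y.2| = 1 → |f x - f y| = 1

/-- a Gibbs (DLR) measure of the uniform specification: a probability measure carried by the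
homomorphisms such that, for every finite set of sites, the conditional law given the values
off that set is the uniform law on the homomorphisms with these outside values -/
def IsGibbs (ν : Measure (ℤ × ℤ → ℤ)) : Prop :=
  IsProbabilityMeasure ν ∧ (∀ᵐ f ∂ν, IsHom f) ∧
    ∀ (Λ : Finset (ℤ × ℤ)) (A : Set (ℤ × ℤ → ℤ)), MeasurableSet A →
      condExp (cylinderEvents (↑Λ : Set (ℤ × ℤ))ᶜ) ν (A.indicator fun _ => (1 : ℝ)) =ᵐ[ν]
        fun f => (uniformOn {g : ℤ × ℤ → ℤ | IsHom g ∧ ∀ x, x ∉ Λ → g x = f x}).real A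

/-- Every extremal Gibbs measure for uniform homomorphisms from the square lattice to the
integers is almost frozen. -/
theorem result (μ : Measure (ℤ × ℤ → ℤ))
    (hμ : μ ∈ Set.extremePoints ENNReal {ν | IsGibbs ν}) :
    ∃ e ∈ ({(1, 0), (-1, 0), (0, 1), (0, -1)} : Set (ℤ × ℤ)), ∀ u : ℤ × ℤ, ∀ᵐ f ∂μ,
      Tendsto (fun n : ℕ => ((f (u + (n : ℤ) • e) - f u : ℤ) : ℝ) / (n : ℝ)) atTop (𝓝 1) := by
  obtain ⟨e, he, h⟩ := Pool.Agent.MP_151d89_pr.H7.full_dlr μ hμ
  exact ⟨e, by simpa using Pool.Agent.MP_151d89_pr.H82.unit_cases he, h⟩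

end Pool.Agent.Results.MP_151d89_pr.AlmostFrozen
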