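import Pool.Agent.MP_151d89_pr.H30.Main

set_option autoImplicit false
open MeasureTheory

namespace Pool.Agent.Results.MP_151d89_pr.LiquidAnnuli

theorem result :
  ∀ G : Set (MeasureTheory.Measure (ℤ × ℤ → ℤ)),
    G = {ν | MeasureTheory.IsProbabilityMeasure ν ∧
      (∀ᵐ f ∂ν, ∀ x y : ℤ × ℤ, |x.1 - y.1| + |x.2 - y.2| = 1 → |f x - f y| = 1) ∧
      ∀ (Λ Δ : Finset (ℤ × ℤ)) (a b : ℤ × ℤ → ℤ),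
        (∀ x y : ℤ × ℤ, |x.1 - y.1| + |x.2 - y.2| = 1 → |a x - a y| = 1) →
        (∀ x y : ℤ × ℤ, |x.1 - y.1| + |x.2 - y.2| = 1 → |b x - b y| = 1) →
        (∀ x, x ∉ Λ → a x = b x) →
        (∀ x ∈ Λ, x ∈ Δ ∧ ∀ y : ℤ × ℤ, |x.1 - y.1| + |x.2 - y.2| = 1 → y ∈ Δ) →
        ν {f | ∀ x ∈ Δ, f x = a x} = ν {f | ∀ x ∈ Δ, f x = b x}} →
    ∀ μ ∈ G,
      (∀ ν₁ ∈ G, ∀ ν₂ ∈ G, ∀ t : ENNReal, 0 < t → t < 1 →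
        μ = t • ν₁ + (1 - t) • ν₂ → ν₁ = ν₂) →
      (∃ e g : ℤ × ℤ, |e.1| + |e.2| = 1 ∧ |g.1| + |g.2| = 1 ∧ e.1 * g.1 + e.2 * g.2 = 0 ∧
        ∃ (c L : ℕ) (θ : ENNReal), θ < 1 ∧ ∀ n : ℕ, ∃ r w : ℕ, n ≤ r ∧ r ≤ c * w ∧
          ∀ x : ℤ × ℤ, (r : ℤ) ≤ max |x.1| |x.2| → max |x.1| |x.2| ≤ (r : ℤ) + w →
            μ {f | f (x + (L : ℤ) • e) - f x = L} ≤ θ ∧
            μ {f | f (x + (L : ℤ) • g) - f x = L} ≤ θ) →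
      ∃ (f₀ : ℤ × ℤ → ℤ) (d : ℤ × ℤ), μ = MeasureTheory.Measure.dirac f₀ ∧ |d.1| + |d.2| = 1 ∧
        ∀ u : ℤ × ℤ,
          Filter.Tendsto (fun n : ℕ => ((f₀ (u + (n : ℤ) • d) - f₀ u : ℤ) : ℝ) / (n : ℝ))
            Filter.atTop (nhds 1) := by
  rintro G rfl μ hμ hext ⟨e, g, he, hg, heg, c, L, θ, hθ, H⟩
  exact Pool.Agent.MP_151d89_pr.H30.main hμ (fun ν₁ h₁ ν₂ h₂ => hext ν₁ h₁ ν₂ h₂) he hg heg c L hθ H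

end Pool.Agent.Results.MP_151d89_pr.LiquidAnnuli
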