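import Pool.Agent.MP_151d89_pr.H58.All3

set_option autoImplicit false
open MeasureTheory

namespace Pool.Agent.Results.MP_151d89_pr.LongFrozenSegments

theorem result :
  ∀ G : Set (MeasureTheory.Measure (ℤ × ℤ → ℤ)),
    G = {ν | MeasureTheory.IsProbabilityMeasure ν ∧
      (∀ᵐ f ∂ν, ∀ x y : ℤ × ℤ, |x.1 - y.1| + |x.2 - y.2| = 1 → |f x - f y| = 1) ∧
      ∀ (Λ Δ : Finset (ℤ × ℤ)) (a b : ℤ × ℤ → ℤ),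
        (∀ x y : ℤ × ℤ, |x.1 - y.1| + |x.2 - y.2| = 1 → |a x - a y| = 1) →
        (∀ x y : ℤ × ℤ, |x.1 - y.1| + |x.2 - y.2| = 1 → |b x - b y| = 1) →
        (∀ x, x ∉ Λ → a x = b x) →
        (∀ x ∈ Λ, x ∈ Δ ∧ ∀ y : ℤ × ℤ, |x.1 - y.1| + |x.2 - y.2| = 1 → y ∈ Δ) →
        ν {f | ∀ x ∈ Δ, f x = a x} = ν {f | ∀ x ∈ Δ, f x = b x}} →
    ∀ δ ε : ℝ, 0 < δ → 0 < ε → ∃ c : ℝ, 0 < c ∧ ∀ μ ∈ G,
      ∀ᵐ f ∂μ, ∀ᶠ R : ℕ in Filter.atTop, ∃ (x e : ℤ × ℤ) (n : ℕ), |e.1| + |e.2| = 1 ∧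
        (∀ t : ℕ, t ≤ n → (R : ℤ) ≤ max |(x + (t : ℤ) • e).1| |(x + (t : ℤ) • e).2| ∧
          ((max |(x + (t : ℤ) • e).1| |(x + (t : ℤ) • e).2| : ℤ) : ℝ) ≤ (1 + ε) * R) ∧
        (1 - δ) * n + c * R < ((f (x + (n : ℤ) • e) - f x : ℤ) : ℝ) := by
  rintro G rfl
  exact Pool.Agent.MP_151d89_pr.H58.long_segments

end Pool.Agent.Results.MP_151d89_pr.LongFrozenSegments
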